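import Pool.Agent.TKY.ProdFull

/-!
# MP_ca1a83_gt: bounded colourings
-/

set_option autoImplicit false

namespace Pool.Agent.TKY

open Cardinal Set

universe u

/-- the partition relation `λ → (λ)²` for colourings by elements of `ω^ω`: every such colouring of
the pairs of ordinals below `λ` is constant on the pairs of some set of size `λ`; every weakly
compact cardinal has this property -/
def PartitionProperty (lam : Cardinal.{u}) : Prop :=
  ∀ c : lam.ord.ToType → lam.ord.ToType → (ℕ → ℕ), ∃ (H : Set lam.ord.ToType) (m : ℕ → ℕ),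
    #H = lam ∧ ∀ α ∈ H, ∀ β ∈ H, α < β → c α β = m

/-- for every colouring `c` of the pairs of ordinals below `λ` by elements of `ω^ω` there are a set
`H` of size `λ` and a function `f` with values in `ω^ω` such that for every subset `s` of `H` of size
less than `κ` there is `γ` above `s` with `c(α,γ) ≤ f(α)` for all `α` in `s` -/
def BoundedColourings (κ lam : Cardinal.{u}) : Prop :=
  ∀ c : lam.ord.ToType → lam.ord.ToType → (ℕ → ℕ),
    ∃ (H : Set lam.ord.ToType) (f : lam.ord.ToType → ℕ → ℕ),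
      #H = lam ∧ ∀ s ⊆ H, #s < κ → ∃ γ, ∀ α ∈ s, α < γ ∧ ∀ n, c α γ n ≤ f α n

lemma exists_above {lam : Cardinal.{u}} (hl : ℵ₀ < lam) {H : Set lam.ord.ToType} (hH : #H = lam)
    (β : lam.ord.ToType) : ∃ γ ∈ H, β < γ := by
  by_contra hh
  push Not at hh
  have h1 : #H ≤ #(Iic β) := mk_le_mk_of_subset fun γ hγ => hh γ hγ
  have h2 : ord #(lam.ord.ToType) = Ordinal.type (fun x y : lam.ord.ToType => x < y) := by
    rw [mk_ord_toType, Ordinal.type_toType]
  have h3 := mk_Iic_lt β h2 (by rw [mk_ord_toType]; exact hl.le)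
  rw [mk_ord_toType] at h3
  rw [hH] at h1
  exact absurd h1 (not_le.mpr h3)

theorem bounded_of_partition {lam : Cardinal.{u}} (hl : ℵ₀ < lam) (hreg : lam.IsRegular)
    (h : PartitionProperty lam) : BoundedColourings lam lam := by
  intro c
  obtain ⟨H, m, hH, hm⟩ := h c
  refine ⟨H, fun _ => m, hH, fun s hs hlt => ?_⟩
  obtain ⟨β, hβ⟩ := exists_bound hreg s hlt
  obtain ⟨γ, hγ, hβγ⟩ := exists_above hl hH β
  refine ⟨γ, fun α hα => ⟨(hβ α hα).trans hβγ, fun n => ?_⟩⟩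
  rw [hm α (hs hα) γ hγ ((hβ α hα).trans hβγ)]

/-- uniform `κ`-complete ultrafilters give bounded colourings -/
theorem bounded_of_ultrafilter {κ lam : Cardinal.{u}} (hκ : ℵ₀ < κ)
    (U : Ultrafilter lam.ord.ToType) (hU : CardinalInterFilter (U : Filter lam.ord.ToType) κ)
    (hunif : ∀ β : lam.ord.ToType, Ioi β ∈ U) : BoundedColourings κ lam := by
  classical
  intro c
  have hcount : CountableInterFilter (U : Filter lam.ord.ToType) :=
    CardinalInterFilter.toCountableInterFilter _ hκ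
  have key : ∀ α n, ∃ v, {γ | c α γ n = v} ∈ U := by
    intro α n
    by_contra hv
    push Not at hv
    have h1 : ∀ v, {γ | c α γ n = v}ᶜ ∈ U := fun v => Ultrafilter.compl_mem_iff_notMem.mpr (hv v)
    have h2 : ⋂ v : ℕ, {γ | c α γ n = v}ᶜ ∈ (U : Filter lam.ord.ToType) :=
      countable_iInter_mem.mpr h1
    obtain ⟨γ, hγ⟩ := U.nonempty_of_mem h2
    exact mem_iInter.mp hγ (c α γ n) rfl
  choose f hf using key
  refine ⟨univ, f, by rw [mk_univ, mk_ord_toType], fun s _ hlt => ?_⟩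
  have h3 : ∀ α ∈ s, Ioi α ∩ ⋂ n, {γ | c α γ n = f α n} ∈ (U : Filter lam.ord.ToType) :=
    fun α _ => Filter.inter_mem (hunif α) (countable_iInter_mem.mpr fun n => hf α n)
  have h4 := (Filter.cardinal_bInter_mem hlt (s := fun α _ => Ioi α ∩ ⋂ n, {γ | c α γ n = f α n})
    (l := (U : Filter lam.ord.ToType))).mpr h3
  obtain ⟨γ, hγ⟩ := U.nonempty_of_mem h4
  refine ⟨γ, fun α hα => ?_⟩
  have h5 := mem_iInter₂.mp hγ α hα
  exact ⟨h5.1, fun n => (mem_iInter.mp h5.2 n).le⟩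

/-- the chain of the sequences -/
lemma exists_chain {P : Type u} [PartialOrder P] (hd : DirectedPoset P) (hne : Nonempty P)
    (hc : ℵ₀ < cof P) (A : Set P) (e : A ↪ (fi P).ord.ToType) :
    ∃ b : (fi P).ord.ToType → ℕ → P, (∀ α, Monotone (b α)) ∧
      (∀ α, ∀ a : A, e a ≤ α → ∃ n, (a : P) ≤ b α n) ∧
      ∀ α β, β < α → ∀ n, ∃ m, b β n ≤ b α m := by
  classical
  have hl := aleph0_lt_fi hc
  have key : ∀ (α : (fi P).ord.ToType) (ih : ∀ β, β < α → ℕ → P), ∃ b : ℕ → P, Monotone b ∧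
      (∀ a : A, e a ≤ α → ∃ n, (a : P) ≤ b n) ∧ ∀ β (h : β < α), ∀ n, ∃ m, ih β h n ≤ b m := by
    intro α ih
    let S : Set P := {p | ∃ a : A, e a ≤ α ∧ (a : P) = p} ∪
      range (fun x : Iio α × ℕ => ih x.1 x.1.2 x.2)
    have h1 : #(Iic α) < fi P := by
      have h2 : ord #(fi P).ord.ToType = Ordinal.type (fun x y : (fi P).ord.ToType => x < y) := by
        rw [mk_ord_toType, Ordinal.type_toType]
      have h3 := mk_Iic_lt α h2 (by rw [mk_ord_toType]; exact hl.le)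
      rwa [mk_ord_toType] at h3
    have h2 : #{p | ∃ a : A, e a ≤ α ∧ (a : P) = p} ≤ #(Iic α) := by
      refine mk_le_of_injective (f := fun p => ⟨e p.2.choose, p.2.choose_spec.1⟩) ?_
      intro p q hpq
      have h4 := e.injective (Subtype.mk.inj hpq)
      refine Subtype.ext ?_
      rw [← p.2.choose_spec.2, ← q.2.choose_spec.2, h4]
    have h3 : #(range (fun x : Iio α × ℕ => ih x.1 x.1.2 x.2)) < fi P := by
      refine mk_range_le.trans_lt ?_
      have h4 : #(Iio α) < fi P := (mk_le_mk_of_subset Iio_subset_Iic_self).trans_lt h1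
      rw [mk_prod, lift_uzero, mk_nat, lift_aleph0]
      exact mul_lt_of_lt hl.le h4 hl
    have hS : #S < fi P := (mk_union_le _ _).trans_lt (add_lt_of_lt hl.le (h2.trans_lt h1) h3)
    obtain ⟨D, hD, hDd⟩ := fine_of_lt hS S le_rfl
    obtain ⟨b, hb, hbD⟩ := exists_seq hd hne hD
    refine ⟨b, hb, fun a ha => ?_, fun β h n => ?_⟩
    · obtain ⟨x, hx, hax⟩ := hDd a (Or.inl ⟨a, ha, rfl⟩)
      obtain ⟨n, hn⟩ := hbD x hx
      exact ⟨n, hax.trans hn⟩
    · obtain ⟨x, hx, hax⟩ := hDd _ (Or.inr ⟨(⟨β, h⟩, n), rfl⟩)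
      obtain ⟨m, hm⟩ := hbD x hx
      exact ⟨m, hax.trans hm⟩
  choose F hF using key
  let b : (fi P).ord.ToType → ℕ → P := wellFounded_lt.fix F
  have hb : ∀ α, b α = F α (fun β _ => b β) := fun α => wellFounded_lt.fix_eq F α
  refine ⟨b, fun α => ?_, fun α => ?_, fun α β h n => ?_⟩
  · rw [hb]
    exact (hF α _).1
  · rw [hb]
    exact (hF α _).2.1
  · obtain ⟨m, hm⟩ := (hF α (fun β _ => b β)).2.2 β h n
    refine ⟨m, ?_⟩
    rw [hb α]
    exact hm

theorem exists_union {P : Type u} [PartialOrder P] (hd : DirectedPoset P) (hc : ℵ₀ < cof P)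
    {κ : Cardinal.{u}} (hB : BoundedColourings κ (fi P)) :
    ∃ (A : Set P) (An : ℕ → Set P), #A ≤ fi P ∧ (¬ ∃ B : Set P, B.Countable ∧ DominatedBy A B) ∧
      A = ⋃ n, An n ∧ ∀ n, ∀ S ⊆ An n, #S < κ → ∃ p, ∀ s ∈ S, s ≤ p := by
  classical
  have hne := nonempty_of_cof hc
  have hl := aleph0_lt_fi hc
  have hreg := isRegular_fi hc
  obtain ⟨A, hA, hA'⟩ := exists_not_dominated hc
  obtain ⟨e⟩ : Nonempty (A ↪ (fi P).ord.ToType) := by
    rw [← Cardinal.le_def, mk_ord_toType]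
    exact hA
  obtain ⟨b, hbm, hbA, hbb⟩ := exists_chain hd hne hc A e
  have hcol : ∀ α β : (fi P).ord.ToType, ∃ c : ℕ → ℕ, α < β → ∀ n, b α n ≤ b β (c n) := by
    intro α β
    by_cases h : α < β
    · choose c hc using hbb β α h
      exact ⟨c, fun _ => hc⟩
    · exact ⟨fun _ => 0, fun h' => absurd h' h⟩
  choose c hcc using hcol
  obtain ⟨H, f, hH, hf⟩ := hB c
  refine ⟨⋃ n, {x | ∃ α ∈ H, ∃ j, f α j ≤ n ∧ b α j = x},
    fun n => {x | ∃ α ∈ H, ∃ j, f α j ≤ n ∧ b α j = x}, ?_, ?_, rfl, ?_⟩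
  · have h1 : (⋃ n, {x | ∃ α ∈ H, ∃ j, f α j ≤ n ∧ b α j = x}) ⊆
        range fun x : (fi P).ord.ToType × ℕ => b x.1 x.2 := by
      intro x hx
      obtain ⟨n, α, -, j, -, rfl⟩ := mem_iUnion.mp hx
      exact ⟨(α, j), rfl⟩
    refine (mk_le_mk_of_subset h1).trans (mk_range_le.trans ?_)
    rw [mk_prod, lift_uzero, mk_nat, lift_aleph0, mk_ord_toType]
    exact (mul_le_mul_right hl.le _).trans (mul_eq_self hl.le).le
  · rintro ⟨B, hBc, hB'⟩
    refine hA' ⟨B, hBc, fun a ha => ?_⟩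
    obtain ⟨γ, hγ, hlt⟩ := exists_above hl hH (e ⟨a, ha⟩)
    obtain ⟨k, hk⟩ := hbA γ ⟨a, ha⟩ hlt.le
    obtain ⟨x, hx, hx'⟩ := hB' (b γ k) (mem_iUnion.mpr ⟨f γ k, γ, hγ, k, le_rfl, rfl⟩)
    exact ⟨x, hx, hk.trans hx'⟩
  · intro n S hS hlt
    choose α hα j hj hx using fun s : S => hS s.2
    obtain ⟨γ, hγ⟩ := hf (range α) (by rintro _ ⟨x, rfl⟩; exact hα x) (mk_range_le.trans_lt hlt)
    refine ⟨b γ n, fun s hs => ?_⟩
    obtain ⟨h1, h3⟩ := hγ (α ⟨s, hs⟩) ⟨_, rfl⟩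
    have h2 := hcc (α ⟨s, hs⟩) γ h1 (j ⟨s, hs⟩)
    have h4 : b (α ⟨s, hs⟩) (j ⟨s, hs⟩) = s := hx ⟨s, hs⟩
    rw [← h4]
    exact h2.trans (hbm γ ((h3 _).trans (hj ⟨s, hs⟩)))

end Pool.Agent.TKY
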