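import Mathlib

/-!
# The compact subsets of a metrizable space (for MP_ca1a83_gt)

If every point of a second countable metrizable space `X` is moved into every neighbourhood of a
point `e` by proper maps `X → X`, then there is a transitive relation on the compact subsets of `X`
which contains inclusion, has an upper bound for every sequence, and for which the sets related to
`L` are dominated by a countable set.
-/

set_option autoImplicit false

namespace Pool.Agent.TKY.KX

open Set Topology TopologicalSpace Filter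

universe u

/-- every point is moved into every neighbourhood of `e` by proper maps `X → X`, for some `e` -/
def HasCentre (X : Type u) [TopologicalSpace X] : Prop :=
  ∃ e : X, ∀ x : X, ∀ U ∈ 𝓝 e, ∃ h : X → X, IsProperMap h ∧ h x ∈ U

variable {X : Type u} [TopologicalSpace X]

/-- the composition of the maps in a list -/
def act {ι : Type*} (g : ι → X → X) : List ι → X → X
  | [] => id
  | i :: l => act g l ∘ g i

lemma act_proper {ι : Type*} {g : ι → X → X} (hg : ∀ i, IsProperMap (g i)) (l : List ι) :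
    IsProperMap (act g l) := by
  induction l with
  | nil => exact isProperMap_id
  | cons i l ih => exact ih.comp (hg i)

omit [TopologicalSpace X] in
lemma act_append {ι : Type*} (g : ι → X → X) (l m : List ι) (x : X) :
    act g (l ++ m) x = act g m (act g l x) := by
  induction l generalizing x with
  | nil => rfl
  | cons i l ih => exact ih (g i x)

/-- `K` is covered by finitely many preimages of `L` -/
def Rel {ι : Type*} (g : ι → X → X) (K L : Compacts X) : Prop :=
  ∃ F : Finset (List ι), (K : Set X) ⊆ ⋃ l ∈ F, act g l ⁻¹' (L : Set X)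

lemma rel_of_le {ι : Type*} (g : ι → X → X) {K L : Compacts X} (h : K ≤ L) : Rel g K L := by
  refine ⟨{[]}, fun x hx => ?_⟩
  simp only [Finset.mem_singleton, iUnion_iUnion_eq_left]
  exact h hx

lemma rel_trans {ι : Type*} (g : ι → X → X) {K L M : Compacts X} (h1 : Rel g K L)
    (h2 : Rel g L M) : Rel g K M := by
  classical
  obtain ⟨F, hF⟩ := h1
  obtain ⟨G, hG⟩ := h2
  refine ⟨Finset.image₂ (· ++ ·) F G, fun x hx => ?_⟩
  obtain ⟨l, hl, hxl⟩ := mem_iUnion₂.mp (hF hx)
  obtain ⟨m, hm, hxm⟩ := mem_iUnion₂.mp (hG hxl)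
  refine mem_iUnion₂.mpr ⟨l ++ m, Finset.mem_image₂_of_mem hl hm, ?_⟩
  show act g (l ++ m) x ∈ (M : Set X)
  rw [act_append]
  exact hxm

lemma rel_small {ι : Type*} [Countable ι] {g : ι → X → X} (hg : ∀ i, IsProperMap (g i))
    (L : Compacts X) : ∃ C : Set (Compacts X), C.Countable ∧
      ∀ K, Rel g K L → ∃ M ∈ C, K ≤ M := by
  refine ⟨range fun F : Finset (List ι) => (⟨⋃ l ∈ F, act g l ⁻¹' (L : Set X),
    F.isCompact_biUnion fun l _ => (act_proper hg l).isCompact_preimage L.isCompact⟩ :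
      Compacts X), countable_range _, ?_⟩
  rintro K ⟨F, hF⟩
  exact ⟨_, ⟨F, rfl⟩, hF⟩

/-- a sequence of compact sets converging to a point -/
lemma compact_union {e : X} {U : ℕ → Set X} (hU : (𝓝 e).HasAntitoneBasis U) {C : ℕ → Set X}
    (hC : ∀ n, IsCompact (C n)) (hCU : ∀ n, C n ⊆ U n) : IsCompact ({e} ∪ ⋃ n, C n) := by
  intro f hf hfL
  by_cases he : ClusterPt e f
  · exact ⟨e, Or.inl rfl, he⟩
  · have h1 : Disjoint (𝓝 e) f := by
      rw [ClusterPt, not_neBot] at he
      exact disjoint_iff.mpr he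
    obtain ⟨V, hV, W, hW, hVW⟩ := Filter.disjoint_iff.mp h1
    obtain ⟨N, -, hN⟩ := hU.toHasBasis.mem_iff.mp hV
    have h2 : IsCompact (⋃ n ∈ Finset.range N, C n) :=
      (Finset.range N).isCompact_biUnion fun n _ => hC n
    have h3 : f ≤ 𝓟 (⋃ n ∈ Finset.range N, C n) := by
      rw [le_principal_iff] at hfL ⊢
      filter_upwards [hfL, hW] with x hx hxW
      rcases hx with hx | hx
      · exact absurd hxW (fun h => hVW.le_bot ⟨by
          rw [mem_singleton_iff.mp hx]
          exact mem_of_mem_nhds hV, h⟩)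
      · obtain ⟨n, hn⟩ := mem_iUnion.mp hx
        refine mem_iUnion₂.mpr ⟨n, ?_, hn⟩
        rw [Finset.mem_range]
        by_contra hcon
        exact hVW.le_bot ⟨hN (hU.antitone (not_lt.mp hcon) (hCU n hn)), hxW⟩
    obtain ⟨x, hx, hxf⟩ := h2 h3
    obtain ⟨n, -, hn⟩ := mem_iUnion₂.mp hx
    exact ⟨x, Or.inr (mem_iUnion.mpr ⟨n, hn⟩), hxf⟩

theorem exists_rel [T2Space X] [SecondCountableTopology X] (hX : HasCentre X) :
    ∃ r : Compacts X → Compacts X → Prop, (∀ K L, K ≤ L → r K L) ∧
      (∀ K L M, r K L → r L M → r K M) ∧ (∀ K : ℕ → Compacts X, ∃ L, ∀ n, r (K n) L) ∧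
      ∀ L, ∃ C : Set (Compacts X), C.Countable ∧ ∀ K, r K L → ∃ M ∈ C, K ≤ M := by
  classical
  obtain ⟨e, he⟩ := hX
  obtain ⟨U, hU⟩ := (𝓝 e).exists_antitone_basis
  choose h hp hh using fun (n : ℕ) (x : X) => he x (interior (U n))
    (interior_mem_nhds.mpr (hU.toHasBasis.mem_of_mem trivial))
  have hnh : ∀ n x, h n x ⁻¹' interior (U n) ∈ 𝓝 x := fun n x =>
    ((hp n x).continuous.isOpen_preimage _ isOpen_interior).mem_nhds (hh n x)
  choose s hs hsU using fun n => TopologicalSpace.countable_cover_nhds (hnh n)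
  have hcs : ∀ n, Countable (s n) := fun n => (hs n).to_subtype
  let g : (Σ n, s n) → X → X := fun i => h i.1 i.2
  have hg : ∀ i, IsProperMap (g i) := fun i => hp _ _
  refine ⟨Rel g, fun K L => rel_of_le g, fun K L M => rel_trans g, fun K => ?_, rel_small hg⟩
  -- compact pieces
  have key : ∀ n, ∃ (t : Finset (s n)) (P : s n → Set X), (∀ x, IsCompact (P x)) ∧
      (∀ x, P x ⊆ h n x ⁻¹' interior (U n)) ∧ (K n : Set X) = ⋃ x ∈ t, P x := by
    intro n
    have h1 : (K n : Set X) ⊆ ⋃ x : s n, h n x ⁻¹' interior (U n) := by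
      intro y _
      have h2 : y ∈ ⋃ x ∈ s n, h n x ⁻¹' interior (U n) := by
        rw [hsU n]
        exact mem_univ y
      obtain ⟨x, hx, hy⟩ := mem_iUnion₂.mp h2
      exact mem_iUnion.mpr ⟨⟨x, hx⟩, hy⟩
    obtain ⟨t, ht⟩ := (K n).isCompact.elim_finite_subcover _
      (fun x : s n => (hp n x).continuous.isOpen_preimage _ isOpen_interior) h1
    obtain ⟨P, hP1, hP2, hP3⟩ := (K n).isCompact.finite_compact_cover t
      (fun x : s n => h n x ⁻¹' interior (U n))
      (fun x _ => (hp n x).continuous.isOpen_preimage _ isOpen_interior) ht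
    exact ⟨t, P, hP1, hP2, hP3⟩
  choose t P hP1 hP2 hP3 using key
  refine ⟨⟨{e} ∪ ⋃ n, ⋃ x ∈ t n, h n x '' P n x, compact_union hU
    (fun n => (t n).isCompact_biUnion fun x _ => (hP1 n x).image (hp n x).continuous)
    (fun n => ?_)⟩, fun n => ?_⟩
  · refine iUnion₂_subset fun x _ => ?_
    rintro _ ⟨y, hy, rfl⟩
    exact interior_subset (hP2 n x hy)
  · refine ⟨(t n).image fun x => [⟨n, x⟩], fun y hy => ?_⟩
    rw [SetLike.mem_coe] at hy
    have hy' : y ∈ (K n : Set X) := hy
    rw [hP3 n] at hy'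
    obtain ⟨x, hx, hyx⟩ := mem_iUnion₂.mp hy'
    refine mem_iUnion₂.mpr ⟨[⟨n, x⟩], Finset.mem_image_of_mem _ hx, ?_⟩
    show h n x y ∈ {e} ∪ ⋃ n, ⋃ x ∈ t n, h n x '' P n x
    exact Or.inr (mem_iUnion.mpr ⟨n, mem_iUnion₂.mpr ⟨x, hx, ⟨y, hyx, rfl⟩⟩⟩)

end Pool.Agent.TKY.KX
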