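import Pool.Agent.TKY.ProdFull
import Pool.Agent.TKY.KX

/-!
# Posets with a countably directed coarser relation, and the compact subsets of a metrizable space
-/

set_option autoImplicit false

namespace Pool.Agent.TKY

open Cardinal Topology Set TopologicalSpace

universe u

variable {P : Type u} [PartialOrder P]

/-- a transitive relation containing the order, with upper bounds for sequences, and a set of size
at most `fi P` without an upper bound -/
theorem mem_of_unbounded (hd : DirectedPoset P) (hc : ℵ₀ < cof P) {r : P → P → Prop}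
    (h1 : ∀ p q, p ≤ q → r p q) (h2 : ∀ p q s, r p q → r q s → r p s)
    (h3 : ∀ x : ℕ → P, ∃ y, ∀ n, r (x n) y)
    (hA : ∃ A : Set P, #A ≤ fi P ∧ ∀ p, ∃ a ∈ A, ¬ r a p) : fi P ∈ Sp P := by
  classical
  have hne := nonempty_of_cof hc
  obtain ⟨p₀⟩ := id hne
  have hl := aleph0_lt_fi hc
  have hreg := isRegular_fi hc
  obtain ⟨A, hA, hA'⟩ := hA
  obtain ⟨e⟩ : Nonempty (A ↪ (fi P).ord.ToType) := by
    rw [← Cardinal.le_def, mk_ord_toType]
    exact hA
  have key : ∀ α : (fi P).ord.ToType, ∃ b : P, ∀ a : A, e a ≤ α → r a b := by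
    intro α
    have h1' : #(Iic α) < fi P := by
      have h2 : ord #(fi P).ord.ToType = Ordinal.type (fun x y : (fi P).ord.ToType => x < y) := by
        rw [mk_ord_toType, Ordinal.type_toType]
      have h3 := mk_Iic_lt α h2 (by rw [mk_ord_toType]; exact hl.le)
      rwa [mk_ord_toType] at h3
    have h2' : #{p | ∃ a : A, e a ≤ α ∧ (a : P) = p} ≤ #(Iic α) := by
      refine mk_le_of_injective (f := fun p => ⟨e p.2.choose, p.2.choose_spec.1⟩) ?_
      intro p q hpq
      have h4 := e.injective (Subtype.mk.inj hpq)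
      refine Subtype.ext ?_
      rw [← p.2.choose_spec.2, ← q.2.choose_spec.2, h4]
    obtain ⟨D, hD, hDd⟩ := fine_of_lt (h2'.trans_lt h1') _ le_rfl
    obtain ⟨f, hf⟩ := (hD.insert p₀).exists_eq_range ⟨p₀, mem_insert _ _⟩
    obtain ⟨y, hy⟩ := h3 f
    refine ⟨y, fun a ha => ?_⟩
    obtain ⟨x, hx, hsx⟩ := hDd a ⟨a, ha, rfl⟩
    have hx' : x ∈ range f := by
      rw [← hf]
      exact mem_insert_of_mem _ hx
    obtain ⟨n, rfl⟩ := hx'
    exact h2 _ _ _ (h1 _ _ hsx) (hy n)
  choose b hb using key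
  refine mem_Sp_of_tukey hd hne hl hreg b fun p => ?_
  by_contra hp
  push Not at hp
  obtain ⟨a, ha, hap⟩ := hA' p
  obtain ⟨α, h5, h6⟩ := hp (e ⟨a, ha⟩)
  exact hap (h2 _ _ _ (hb α ⟨a, ha⟩ h6.le) (h1 _ _ h5))

/-- the case where the set of the elements below each element is dominated by a small set -/
theorem mem_of_small (hd : DirectedPoset P) (hc : ℵ₀ < cof P) {r : P → P → Prop}
    (h1 : ∀ p q, p ≤ q → r p q) (h2 : ∀ p q s, r p q → r q s → r p s)
    (h3 : ∀ x : ℕ → P, ∃ y, ∀ n, r (x n) y)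
    (h4 : ∀ p, ∃ C : Set P, #C < fi P ∧ DominatedBy {q | r q p} C) : fi P ∈ Sp P := by
  refine mem_of_unbounded hd hc h1 h2 h3 ?_
  obtain ⟨A, hA, hA'⟩ := exists_not_dominated hc
  refine ⟨A, hA, fun p => ?_⟩
  by_contra hp
  push Not at hp
  obtain ⟨C, hC, hC'⟩ := h4 p
  obtain ⟨D, hD, hDd⟩ := fine_of_lt hC C le_rfl
  refine hA' ⟨D, hD, fun a ha => ?_⟩
  obtain ⟨c, hc1, hc2⟩ := hC' a (hp a ha)
  obtain ⟨x, hx, hcx⟩ := hDd c hc1
  exact ⟨x, hx, hc2.trans hcx⟩

/-- a family of size `ω_1` of which every element bounds only countably many members -/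
theorem mem_of_aleph_one (hd : DirectedPoset P) (b : (aleph 1 : Cardinal.{u}).ord.ToType → P)
    (hb : ∀ p, {α | b α ≤ p}.Countable) : fi P ∈ Sp P := by
  have h01 : ℵ₀ < (aleph 1 : Cardinal.{u}) := by
    rw [← succ_aleph0]
    exact Order.lt_succ _
  have hnf : ¬ Fine P (aleph 1) := by
    intro h
    obtain ⟨B, hB, hBd⟩ := h (range b) (mk_range_le.trans (mk_ord_toType _).le)
    have h2 : (univ : Set (aleph 1 : Cardinal.{u}).ord.ToType) ⊆ ⋃ p ∈ B, {α | b α ≤ p} := by
      intro α _
      obtain ⟨p, hp, hαp⟩ := hBd _ ⟨α, rfl⟩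
      exact mem_iUnion₂.mpr ⟨p, hp, hαp⟩
    have h3 := (hB.biUnion fun p _ => hb p).mono h2
    have h4 := le_aleph0_iff_set_countable.mpr h3
    rw [mk_univ, mk_ord_toType] at h4
    exact absurd h4 (not_le.mpr h01)
  have hc := cof_of_not_fine hnf
  have hfi : fi P = aleph 1 := by
    refine le_antisymm (fi_le hnf) ?_
    rw [← succ_aleph0]
    exact Order.succ_le_of_lt (aleph0_lt_fi hc)
  rw [hfi]
  refine mem_Sp_of_tukey hd (nonempty_of_cof hc) h01 isRegular_aleph_one b fun p => ?_
  obtain ⟨γ, hγ⟩ := exists_bound isRegular_aleph_one {α | b α ≤ p}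
    ((le_aleph0_iff_set_countable.mpr (hb p)).trans_lt h01)
  exact ⟨γ, fun α hα => (hγ α hα).le⟩

/-- the compact subsets of a metrizable space which is not separable -/
theorem nonsep {X : Type u} [MetricSpace X] (h : ¬ SecondCountableTopology X) :
    fi (Compacts X) ∈ Sp (Compacts X) := by
  obtain ⟨ε, hε, hs⟩ : ∃ ε : ℝ, 0 < ε ∧ ∀ s : Set X, s.Countable → ∃ x, ∀ y ∈ s,
      ε < dist x y := by
    by_contra hcon
    push Not at hcon
    exact h (Metric.secondCountable_of_almost_dense_set hcon)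
  have hcount : ∀ α : (aleph 1 : Cardinal.{u}).ord.ToType, (Iic α).Countable := by
    intro α
    have h2 : ord #(aleph 1 : Cardinal.{u}).ord.ToType =
        Ordinal.type (fun x y : (aleph 1 : Cardinal.{u}).ord.ToType => x < y) := by
      rw [mk_ord_toType, Ordinal.type_toType]
    have h3 := mk_Iic_lt α h2 (by rw [mk_ord_toType]; exact aleph0_le_aleph 1)
    rw [mk_ord_toType] at h3
    exact (Cardinal.countable_iff_lt_aleph_one _).mpr h3
  have key : ∀ (α : (aleph 1 : Cardinal.{u}).ord.ToType) (ih : ∀ β, β < α → X), ∃ x : X,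
      ∀ β (hβ : β < α), ε < dist x (ih β hβ) := by
    intro α ih
    have h1 : (range fun x : Iio α => ih x.1 x.2).Countable := by
      have := ((hcount α).mono Iio_subset_Iic_self).to_subtype
      exact countable_range _
    obtain ⟨x, hx⟩ := hs _ h1
    exact ⟨x, fun β hβ => hx _ ⟨⟨β, hβ⟩, rfl⟩⟩
  choose F hF using key
  let x : (aleph 1 : Cardinal.{u}).ord.ToType → X := wellFounded_lt.fix F
  have hx : ∀ α, x α = F α (fun β _ => x β) := fun α => wellFounded_lt.fix_eq F α
  have hdist : ∀ α β, β < α → ε < dist (x α) (x β) := by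
    intro α β hβ
    rw [hx α]
    exact hF α _ β hβ
  refine mem_of_aleph_one (fun a b => ⟨a ⊔ b, le_sup_left, le_sup_right⟩)
    (fun α => (⟨{x α}, isCompact_singleton⟩ : Compacts X)) fun p => ?_
  obtain ⟨t, ht, hpt⟩ := Metric.totallyBounded_iff.mp p.isCompact.totallyBounded (ε / 2)
    (half_pos hε)
  have h1 : ∀ α : {α | (⟨{x α}, isCompact_singleton⟩ : Compacts X) ≤ p}, ∃ y : t,
      x α ∈ Metric.ball y.1 (ε / 2) := by
    rintro ⟨α, hα⟩
    have h2 : x α ∈ (p : Set X) := hα rfl
    obtain ⟨y, hy, hxy⟩ := mem_iUnion₂.mp (hpt h2)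
    exact ⟨⟨y, hy⟩, hxy⟩
  choose c hc using h1
  have hinj : Function.Injective c := by
    intro α β hαβ
    have h2 : dist (x α) (x β) < ε := by
      have h3 := Metric.mem_ball.mp (hc α)
      have h4 := Metric.mem_ball.mp (hc β)
      rw [hαβ] at h3
      have h5 := dist_triangle_right (x α) (x β) (c β).1
      linarith
    refine Subtype.ext ?_
    rcases lt_trichotomy α.1 β.1 with h3 | h3 | h3
    · have h4 := hdist _ _ h3
      rw [dist_comm] at h4
      linarith
    · exact h3
    · have h4 := hdist _ _ h3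
      linarith
  have hft : Finite t := ht
  exact (hinj.countable : Countable _)

/-- the compact subsets of a metrizable space with a centre -/
theorem compacts (X : Type u) [TopologicalSpace X] [MetrizableSpace X] (hX : KX.HasCentre X)
    (hc : ℵ₀ < cof (Compacts X)) : fi (Compacts X) ∈ Sp (Compacts X) := by
  by_cases hsc : SecondCountableTopology X
  · obtain ⟨r, h1, h2, h3, h4⟩ := KX.exists_rel hX
    refine mem_of_small (fun a b => ⟨a ⊔ b, le_sup_left, le_sup_right⟩) hc h1 h2 h3 fun p => ?_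
    obtain ⟨C, hC, hC'⟩ := h4 p
    exact ⟨C, (le_aleph0_iff_set_countable.mpr hC).trans_lt (aleph0_lt_fi hc), hC'⟩
  · let _ := metrizableSpaceMetric X
    exact nonsep hsc

end Pool.Agent.TKY
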