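import Pool.Agent.TKY.Def

/-!
# The groups `{1, -1}^A` with the topology of a directed family of subsets of `A`, the regularity of
`fi(P)`, and the criterion `λ ≤_T P → λ ∈ Sp_χ(P)` for regular `λ`.
-/

set_option autoImplicit false

namespace Pool.Agent.TKY

open Cardinal Topology Set

universe u

/-- the group of all functions from a set to `{1, -1}` -/
def GG (A : Type u) : Type u := A → ℤˣ

instance (A : Type u) : CommGroup (GG A) := inferInstanceAs (CommGroup (A → ℤˣ))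

/-- the functions which are `1` on `S` -/
def VV {A : Type u} (S : Set A) : Set (GG A) := {f | ∀ a ∈ S, f a = 1}

lemma VV_anti {A : Type u} {S T : Set A} (h : S ⊆ T) : VV T ⊆ VV S :=
  fun _ hf a ha => hf a (h ha)

lemma subset_of_VV {A : Type u} {S T : Set A} (h : VV T ⊆ VV S) : S ⊆ T := by
  classical
  intro a ha
  by_contra hT
  have hf : (fun b => if b = a then (-1 : ℤˣ) else 1 : GG A) ∈ VV T := by
    intro b hb
    have : b ≠ a := by
      rintro rfl
      exact hT hb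
    exact if_neg this
  have := h hf a ha
  rw [if_pos rfl] at this
  exact absurd this (by decide)

variable {P : Type u} [PartialOrder P]

/-- the filter basis of a monotone family `tr` -/
@[instance_reducible]
def basis (hd : DirectedPoset P) (hne : Nonempty P) {A : Type u} (tr : P → Set A)
    (hm : ∀ p q : P, p ≤ q → tr p ⊆ tr q) : GroupFilterBasis (GG A) :=
  groupFilterBasisOfComm (range fun p : P => VV (tr p)) (range_nonempty _)
    (by
      rintro _ _ ⟨p, rfl⟩ ⟨q, rfl⟩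
      obtain ⟨r, hp, hq⟩ := hd p q
      exact ⟨_, ⟨r, rfl⟩, subset_inter (VV_anti (hm _ _ hp)) (VV_anti (hm _ _ hq))⟩)
    (by
      rintro _ ⟨p, rfl⟩ a _
      rfl)
    (by
      rintro _ ⟨p, rfl⟩
      refine ⟨_, ⟨p, rfl⟩, ?_⟩
      rintro _ ⟨f, hf, g, hg, rfl⟩ a ha
      show f a * g a = 1
      rw [hf a ha, hg a ha, mul_one])
    (by
      rintro _ ⟨p, rfl⟩
      refine ⟨_, ⟨p, rfl⟩, ?_⟩
      intro f hf a ha
      show (f a)⁻¹ = 1
      rw [hf a ha, inv_one])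

lemma character_le {G : Type u} [Group G] [TopologicalSpace G] {B : Set (Set G)}
    (h : IsBaseAtOne B) : character G ≤ #B := csInf_le' ⟨B, h, rfl⟩

lemma exists_character (G : Type u) [Group G] [TopologicalSpace G] :
    ∃ B : Set (Set G), IsBaseAtOne B ∧ #B = character G := by
  have : {κ : Cardinal.{u} | ∃ B : Set (Set G), IsBaseAtOne B ∧ #B = κ}.Nonempty :=
    ⟨_, (𝓝 (1 : G)).sets, ⟨fun V hV => hV, fun W hW => ⟨W, hW, subset_rfl⟩⟩, rfl⟩
  exact csInf_mem this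

lemma fine_of_lt {κ : Cardinal.{u}} (h : κ < fi P) : Fine P κ := by
  by_contra hf
  exact absurd (csInf_le' (s := {κ | ¬ Fine P κ}) hf) (not_le.mpr h)

lemma fi_le {κ : Cardinal.{u}} (h : ¬ Fine P κ) : fi P ≤ κ := csInf_le' h

lemma fine_of_cof (h : cof P ≤ ℵ₀) (κ : Cardinal.{u}) : Fine P κ := by
  intro A _
  have : {κ : Cardinal.{u} | ∃ B : Set P, DominatedBy univ B ∧ #B = κ}.Nonempty :=
    ⟨_, univ, fun a _ => ⟨a, trivial, le_rfl⟩, rfl⟩
  obtain ⟨B, hB, hc⟩ := csInf_mem this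
  refine ⟨B, le_aleph0_iff_set_countable.mp (hc.le.trans h), fun a _ => hB a trivial⟩

lemma not_fine (h : ℵ₀ < cof P) : ¬ Fine P (fi P) := by
  have hne : {κ : Cardinal.{u} | ¬ Fine P κ}.Nonempty := by
    refine ⟨#P, fun hf => ?_⟩
    obtain ⟨B, hB, hd⟩ := hf univ (le_of_eq mk_univ)
    have h1 : cof P ≤ #B := csInf_le' ⟨B, hd, rfl⟩
    exact absurd (h1.trans (le_aleph0_iff_set_countable.mpr hB)) (not_le.mpr h)
  exact csInf_mem hne

lemma fine_aleph0 : Fine P ℵ₀ :=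
  fun A hA => ⟨A, le_aleph0_iff_set_countable.mp hA, fun a ha => ⟨a, ha, le_rfl⟩⟩

lemma fine_mono {κ μ : Cardinal.{u}} (h : κ ≤ μ) (hf : Fine P μ) : Fine P κ :=
  fun A hA => hf A (hA.trans h)

lemma aleph0_lt_fi (h : ℵ₀ < cof P) : ℵ₀ < fi P := by
  by_contra hn
  rw [not_lt] at hn
  exact not_fine h (fine_mono hn fine_aleph0)

lemma cof_of_not_fine {κ : Cardinal.{u}} (h : ¬ Fine P κ) : ℵ₀ < cof P := by
  by_contra hn
  rw [not_lt] at hn
  exact h (fine_of_cof hn κ)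

lemma nonempty_of_cof (h : ℵ₀ < cof P) : Nonempty P := by
  by_contra hn
  rw [not_nonempty_iff] at hn
  have : cof P ≤ #(∅ : Set P) := csInf_le' ⟨∅, fun a _ => hn.elim a, rfl⟩
  rw [mk_eq_zero (∅ : Set P)] at this
  exact absurd (this.trans (aleph0_pos.le)) (not_le.mpr h)

/-- the group of a monotone family -/
theorem group_of_trace (hd : DirectedPoset P) (hne : Nonempty P) {A : Type u} (tr : P → Set A)
    (hm : ∀ p q : P, p ≤ q → tr p ⊆ tr q) (hc : ∀ a : A, ∃ p, a ∈ tr p) :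
    ∃ (G : Type u) (_ : Group G) (_ : TopologicalSpace G), IsTopologicalGroup G ∧ T2Space G ∧
      HasPBase P G ∧
      (∀ C : Set (Set A), (∀ S ∈ C, ∃ p, S ⊆ tr p) → (∀ p, ∃ S ∈ C, tr p ⊆ S) →
        character G ≤ #C) ∧
      (∃ C : Set P, #C ≤ character G ∧ ∀ p, ∃ c ∈ C, tr p ⊆ tr c) := by
  let τ : TopologicalSpace (GG A) := (basis hd hne tr hm).topology
  have hG : IsTopologicalGroup (GG A) := (basis hd hne tr hm).isTopologicalGroup
  have hb : (𝓝 (1 : GG A)).HasBasis (fun V : Set (GG A) => V ∈ basis hd hne tr hm) id :=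
    (basis hd hne tr hm).nhds_one_hasBasis
  have hbase : IsBaseAtOne (range fun p : P => VV (tr p)) := by
    refine ⟨fun V hV => hb.mem_of_mem hV, fun W hW => ?_⟩
    obtain ⟨V, hV, hVW⟩ := hb.mem_iff.mp hW
    exact ⟨V, hV, hVW⟩
  have hT2 : T2Space (GG A) := by
    refine IsTopologicalGroup.t2Space_of_one_sep fun f hf => ?_
    obtain ⟨a, ha⟩ : ∃ a : A, f a ≠ 1 := by
      by_contra hc
      push Not at hc
      exact hf (funext hc)
    obtain ⟨p, hp⟩ := hc a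
    exact ⟨VV (tr p), hbase.1 _ ⟨_, rfl⟩, fun h1 => ha (h1 a hp)⟩
  refine ⟨GG A, inferInstance, τ, hG, hT2,
    ⟨fun p => VV (tr p), hbase, fun p q hpq => VV_anti (hm _ _ hpq)⟩, fun C h1 h2 => ?_, ?_⟩
  · have hB : IsBaseAtOne (VV '' C) := by
      refine ⟨?_, fun W hW => ?_⟩
      · rintro _ ⟨S, hS, rfl⟩
        obtain ⟨p, hp⟩ := h1 S hS
        exact Filter.mem_of_superset (hbase.1 _ ⟨p, rfl⟩) (VV_anti hp)
      · obtain ⟨_, ⟨p, rfl⟩, hp⟩ := hbase.2 W hW
        obtain ⟨S, hS, hpS⟩ := h2 p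
        exact ⟨VV S, ⟨S, hS, rfl⟩, (VV_anti hpS).trans hp⟩
    exact (character_le hB).trans mk_image_le
  · obtain ⟨B, hB, hcard⟩ := exists_character (GG A)
    have hex : ∀ V : B, ∃ p : P, VV (tr p) ⊆ (V : Set (GG A)) := by
      intro V
      obtain ⟨_, ⟨p, rfl⟩, hW⟩ := hbase.2 V (hB.1 V V.2)
      exact ⟨p, hW⟩
    choose p hp using hex
    refine ⟨range p, mk_range_le.trans hcard.le, fun q => ?_⟩
    obtain ⟨V, hV, hVq⟩ := hB.2 (VV (tr q)) (hbase.1 _ ⟨_, rfl⟩)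
    exact ⟨p ⟨V, hV⟩, ⟨_, rfl⟩, subset_of_VV ((hp ⟨V, hV⟩).trans hVq)⟩

/-- a metrizable group has a countable base at the identity -/
lemma not_metrizable {G : Type u} [Group G] [TopologicalSpace G] (h : ℵ₀ < character G) :
    ¬ TopologicalSpace.MetrizableSpace G := by
  intro hm
  obtain ⟨x, hx⟩ := (𝓝 (1 : G)).exists_antitone_basis
  have hB : IsBaseAtOne (range x) := by
    refine ⟨?_, fun W hW => ?_⟩
    · rintro _ ⟨n, rfl⟩
      exact hx.1.mem_of_mem trivial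
    · obtain ⟨n, _, hn⟩ := hx.1.mem_iff.mp hW
      exact ⟨_, ⟨n, rfl⟩, hn⟩
  exact absurd ((character_le hB).trans (le_aleph0_iff_set_countable.mpr (countable_range x)))
    (not_le.mpr h)

lemma exists_bound {lam : Cardinal.{u}} (hreg : lam.IsRegular) (s : Set lam.ord.ToType)
    (hs : #s < lam) : ∃ γ, ∀ b ∈ s, b < γ := by
  by_contra hc
  push Not at hc
  have h1 : IsCofinal s := fun x => by
    obtain ⟨b, hb, hx⟩ := hc x
    exact ⟨b, hb, hx⟩
  have h2 := Order.cof_le h1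
  rw [Ordinal.cof_toType, hreg.cof_ord] at h2
  exact absurd h2 (not_le.mpr hs)

/-- Tukey maps from a regular cardinal -/
theorem mem_Sp_of_tukey (hd : DirectedPoset P) (hne : Nonempty P) {lam : Cardinal.{u}}
    (hl : ℵ₀ < lam) (hreg : lam.IsRegular) (h : lam.ord.ToType → P)
    (hh : ∀ p : P, ∃ β : lam.ord.ToType, ∀ α, h α ≤ p → α ≤ β) : lam ∈ Sp P := by
  obtain ⟨G, hG, hT, hTG, hT2, hPB, h1, C, hC, hC2⟩ := group_of_trace hd hne
    (tr := fun p => {β : lam.ord.ToType | ∃ α, h α ≤ p ∧ β ≤ α})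
    (fun p q hpq β hβ => by
      obtain ⟨α, h1, h2⟩ := hβ
      exact ⟨α, h1.trans hpq, h2⟩)
    (fun a => ⟨h a, a, le_rfl, le_rfl⟩)
  have hup : character G ≤ lam := by
    refine (h1 (range fun β : lam.ord.ToType => Iic β) ?_ ?_).trans
      (mk_range_le.trans (mk_ord_toType lam).le)
    · rintro _ ⟨β, rfl⟩
      exact ⟨h β, fun γ hγ => ⟨β, le_rfl, hγ⟩⟩
    · intro p
      obtain ⟨β, hβ⟩ := hh p
      refine ⟨_, ⟨β, rfl⟩, fun γ hγ => ?_⟩
      obtain ⟨α, h2, h3⟩ := hγ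
      exact h3.trans (hβ α h2)
  have hlow : lam ≤ character G := by
    by_contra hlt
    rw [not_le] at hlt
    choose β hβ using hh
    obtain ⟨γ, hγ⟩ := exists_bound hreg (β '' C) ((mk_image_le.trans hC).trans_lt hlt)
    obtain ⟨c, hc, hcc⟩ := hC2 (h γ)
    obtain ⟨α, h2, h3⟩ := hcc (show γ ∈ {δ : lam.ord.ToType | ∃ α, h α ≤ h γ ∧ δ ≤ α} from
      ⟨γ, le_rfl, le_rfl⟩)
    exact absurd (h3.trans (hβ c α h2)) (not_le.mpr (hγ _ ⟨c, hc, rfl⟩))
  have heq : character G = lam := le_antisymm hup hlow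
  exact ⟨G, hG, hT, hTG, hT2, not_metrizable (by rw [heq]; exact hl), hPB, heq⟩

/-- the fineness index is regular -/
theorem isRegular_fi (hc : ℵ₀ < cof P) : (fi P).IsRegular := by
  have hl := aleph0_lt_fi hc
  refine ⟨hl.le, ?_⟩
  by_contra hlt
  rw [not_le] at hlt
  refine not_fine hc fun A hA => ?_
  rcases hA.lt_or_eq with hA | hA
  · exact fine_of_lt hA A le_rfl
  · obtain ⟨e⟩ : Nonempty (A ≃ (fi P).ord.ToType) := by
      rw [← Cardinal.eq, mk_ord_toType]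
      exact hA
    obtain ⟨s, hs, hsc⟩ := Order.exists_cof_eq (fi P).ord.ToType
    rw [Ordinal.cof_toType] at hsc
    have hx : ∀ x : (fi P).ord.ToType, ∃ B : Set P, B.Countable ∧
        DominatedBy {a : P | ∃ h : a ∈ A, e ⟨a, h⟩ ≤ x} B := by
      intro x
      refine fine_of_lt (κ := #{a : P | ∃ h : a ∈ A, e ⟨a, h⟩ ≤ x}) ?_ _ le_rfl
      have h1 : #{a : P | ∃ h : a ∈ A, e ⟨a, h⟩ ≤ x} ≤ #(Iic x) := by
        refine mk_le_of_injective (f := fun a => ⟨e ⟨a.1, a.2.choose⟩, a.2.choose_spec⟩) ?_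
        intro a b hab
        have h2 := congrArg Subtype.val hab
        have h3 := e.injective h2
        exact Subtype.ext (Subtype.mk.inj h3)
      refine h1.trans_lt ?_
      have h2 : ord #(fi P).ord.ToType = Ordinal.type (fun x y : (fi P).ord.ToType => x < y) := by
        rw [mk_ord_toType, Ordinal.type_toType]
      have h3 := mk_Iic_lt x h2 (by rw [mk_ord_toType]; exact hl.le)
      rwa [mk_ord_toType] at h3
    choose B hB hBd using hx
    have hU : #(⋃ x : s, B x : Set P) < fi P := by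
      refine (mk_iUnion_le_sum_mk).trans_lt ?_
      refine (sum_le_sum (fun x : s => #(B x)) (fun _ => ℵ₀)
        fun x => le_aleph0_iff_set_countable.mpr (hB x)).trans_lt ?_
      rw [sum_const']
      exact mul_lt_of_lt hl.le (by rw [hsc]; exact hlt) hl
    obtain ⟨C, hC, hCd⟩ := fine_of_lt hU _ le_rfl
    refine ⟨C, hC, fun a ha => ?_⟩
    obtain ⟨x, hxs, hx⟩ := hs (e ⟨a, ha⟩)
    obtain ⟨b, hb, hab⟩ := hBd x a ⟨ha, hx⟩
    obtain ⟨c, hc, hbc⟩ := hCd b (mem_iUnion.mpr ⟨⟨x, hxs⟩, hb⟩)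
    exact ⟨c, hc, hab.trans hbc⟩

end Pool.Agent.TKY
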