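import Mathlib

/-!
# Directed posets and topological groups with a `P`-base (definitions for MP_ca1a83_gt)
-/

set_option autoImplicit false

namespace Pool.Agent.TKY

open Cardinal Topology Set

universe u

section defs

variable (P : Type u) [PartialOrder P]

/-- `A` is dominated by `B`: every element of `A` lies below some element of `B` -/
def DominatedBy {P : Type u} [PartialOrder P] (A B : Set P) : Prop := ∀ a ∈ A, ∃ b ∈ B, a ≤ b

/-- the cofinality: the least size of a subset dominating `P` -/
noncomputable def cof : Cardinal.{u} := sInf {κ | ∃ B : Set P, DominatedBy univ B ∧ #B = κ}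

/-- `P` is `κ`-fine: every subset of size at most `κ` is dominated by a countable subset -/
def Fine (κ : Cardinal.{u}) : Prop :=
  ∀ A : Set P, #A ≤ κ → ∃ B : Set P, B.Countable ∧ DominatedBy A B

/-- the fineness index: the least cardinal `κ` such that `P` is not `κ`-fine -/
noncomputable def fi : Cardinal.{u} := sInf {κ | ¬ Fine P κ}

/-- `P` is directed -/
def DirectedPoset : Prop := ∀ a b : P, ∃ c : P, a ≤ c ∧ b ≤ c

/-- `B` is a base at the identity (a base of the filter of neighbourhoods) -/
def IsBaseAtOne {G : Type u} [Group G] [TopologicalSpace G] (B : Set (Set G)) : Prop :=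
  (∀ V ∈ B, V ∈ 𝓝 (1 : G)) ∧ ∀ W ∈ 𝓝 (1 : G), ∃ V ∈ B, V ⊆ W

/-- the group has a `P`-base -/
def HasPBase (G : Type u) [Group G] [TopologicalSpace G] : Prop :=
  ∃ U : P → Set G, IsBaseAtOne (range U) ∧ ∀ p q : P, p ≤ q → U q ⊆ U p

/-- the character: the least size of a base at the identity -/
noncomputable def character (G : Type u) [Group G] [TopologicalSpace G] : Cardinal.{u} :=
  sInf {κ | ∃ B : Set (Set G), IsBaseAtOne B ∧ #B = κ}

/-- the set of the characters of the non-metrizable (Hausdorff) topological groups with a
`P`-base -/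
def Sp : Set Cardinal.{u} :=
  {κ | ∃ (G : Type u) (_ : Group G) (_ : TopologicalSpace G), IsTopologicalGroup G ∧ T2Space G ∧
    ¬ TopologicalSpace.MetrizableSpace G ∧ HasPBase P G ∧ character G = κ}

end defs

end Pool.Agent.TKY
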