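import Mathlib

/-!
# The nowhere dense subsets of the Cantor set (for MP_ca1a83_gt)

`R A B` means that every element of `A` agrees with an element of `B` up to finitely many
coordinates. Sequences of nowhere dense sets have upper bounds for `R`. If every family indexed by
`ι` has an upper bound for `R` then every such family is dominated by a countable family.
-/

set_option autoImplicit false

namespace Pool.Agent.TKY.Nwd

open Set Topology

/-- the Cantor set -/
abbrev Om : Type := ℕ → Bool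

/-- a partition of the natural numbers into the intervals `[k i, k (i + 1))` -/
structure Part (k : ℕ → ℕ) : Prop where
  mono : StrictMono k
  zero : k 0 = 0

/-- the sequences which differ from `x` on the intervals number `N, N + 1, …` -/
def D (x : Om) (k : ℕ → ℕ) (N : ℕ) : Set Om :=
  {y | ∀ i, N ≤ i → ∃ j, k i ≤ j ∧ j < k (i + 1) ∧ y j ≠ x j}

/-- the number of the interval containing `j` -/
noncomputable def idx (k : ℕ → ℕ) (j : ℕ) : ℕ := Nat.findGreatest (fun i => k i ≤ j) j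

lemma idx_spec {k : ℕ → ℕ} (hk : Part k) (j : ℕ) : k (idx k j) ≤ j ∧ j < k (idx k j + 1) := by
  constructor
  · exact Nat.findGreatest_spec (P := fun i => k i ≤ j) (m := 0) (Nat.zero_le j)
      (by rw [hk.zero]; exact Nat.zero_le j)
  · by_contra h
    rw [not_lt] at h
    have h1 : idx k j + 1 ≤ j := (hk.mono.le_apply).trans h
    have h2 : idx k j + 1 ≤ idx k j := Nat.le_findGreatest (P := fun i => k i ≤ j) h1 h
    omega

lemma idx_eq {k : ℕ → ℕ} (hk : Part k) {i j : ℕ} (h1 : k i ≤ j) (h2 : j < k (i + 1)) :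
    idx k j = i := by
  obtain ⟨h3, h4⟩ := idx_spec hk j
  have h5 := hk.mono.lt_iff_lt.mp (h3.trans_lt h2)
  have h6 := hk.mono.lt_iff_lt.mp (h1.trans_lt h4)
  omega

lemma glue {k : ℕ → ℕ} (hk : Part k) (s : ℕ → Om) :
    ∃ x : Om, ∀ i j, k i ≤ j → j < k (i + 1) → x j = s i j :=
  ⟨fun j => s (idx k j) j, fun i j h1 h2 => by
    show s (idx k j) j = s i j
    rw [idx_eq hk h1 h2]⟩

lemma open_nbhd {U : Set Om} (hU : IsOpen U) {y : Om} (hy : y ∈ U) :
    ∃ n, ∀ w : Om, (∀ j, j < n → w j = y j) → w ∈ U := by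
  obtain ⟨I, u, hu, hsub⟩ := isOpen_pi_iff.mp hU y hy
  refine ⟨I.sup id + 1, fun w hw => hsub fun a ha => ?_⟩
  have h1 : a ≤ I.sup id := Finset.le_sup (f := id) ha
  rw [hw a (Nat.lt_succ_of_le h1)]
  exact (hu a ha).2

lemma cyl_open (s : Om) (n : ℕ) : IsOpen {w : Om | ∀ j, j < n → w j = s j} := by
  have h : {w : Om | ∀ j, j < n → w j = s j} =
      ⋂ j ∈ Finset.range n, (fun w : Om => w j) ⁻¹' {s j} := by
    ext w
    simp
  rw [h]
  exact isOpen_biInter_finset fun j _ => (isOpen_discrete _).preimage (continuous_apply j)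

lemma nd_iff (A : Set Om) : IsNowhereDense A ↔ ∀ (y : Om) (n : ℕ), ∃ (z : Om) (m : ℕ),
    (∀ j, j < n → z j = y j) ∧ ∀ w : Om, (∀ j, j < m → w j = z j) → w ∉ A := by
  constructor
  · intro hA y n
    obtain ⟨z, hz, hz'⟩ : ∃ z, z ∈ {w : Om | ∀ j, j < n → w j = y j} ∧ z ∉ closure A := by
      by_contra hcon
      push Not at hcon
      have h1 : {w : Om | ∀ j, j < n → w j = y j} ⊆ interior (closure A) :=
        interior_maximal (fun w hw => hcon w hw) (cyl_open y n)
      rw [hA] at h1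
      exact h1 (show y ∈ _ from fun _ _ => rfl)
    obtain ⟨m, hm⟩ := open_nbhd isClosed_closure.isOpen_compl (show z ∈ (closure A)ᶜ from hz')
    exact ⟨z, m, hz, fun w hw hwA => hm w hw (subset_closure hwA)⟩
  · intro h
    rw [IsNowhereDense, eq_empty_iff_forall_notMem]
    intro y hy
    obtain ⟨n, hn⟩ := open_nbhd isOpen_interior hy
    obtain ⟨z, m, hz, hzA⟩ := h y n
    have h1 : z ∈ closure A := interior_subset (hn z hz)
    obtain ⟨w, hw, hwA⟩ := mem_closure_iff.mp h1 _ (cyl_open z m) (fun _ _ => rfl)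
    exact hzA w hw hwA

lemma D_nd (x : Om) {k : ℕ → ℕ} (hk : Part k) (N : ℕ) : IsNowhereDense (D x k N) := by
  rw [nd_iff]
  intro y n
  have h1 : n ≤ k (max n N) := (le_max_left _ _).trans hk.mono.le_apply
  refine ⟨fun j => if j < k (max n N) then y j else x j, k (max n N + 1), fun j hj => ?_, ?_⟩
  · exact if_pos (hj.trans_le h1)
  · intro w hw hwD
    obtain ⟨j, h2, h3, h4⟩ := hwD (max n N) (le_max_right _ _)
    refine h4 ?_
    rw [hw j h3]
    exact if_neg (not_lt.mpr h2)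

lemma nd_union {A B : Set Om} (hA : IsNowhereDense A) (hB : IsNowhereDense B) :
    IsNowhereDense (A ∪ B) := by
  rw [nd_iff] at *
  intro y n
  obtain ⟨z, m, h1, h2⟩ := hA y n
  obtain ⟨z', m', h3, h4⟩ := hB z (max n m)
  refine ⟨z', max m m', fun j hj => ?_, fun w hw hwAB => ?_⟩
  · rw [h3 j (hj.trans_le (le_max_left _ _)), h1 j hj]
  · rcases hwAB with h | h
    · refine h2 w (fun j hj => ?_) h
      rw [hw j (hj.trans_le (le_max_left _ _)), h3 j (hj.trans_le (le_max_right _ _))]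
    · exact h4 w (fun j hj => hw j (hj.trans_le (le_max_right _ _))) h

lemma step {A : Set Om} (hA : IsNowhereDense A) (n : ℕ) :
    ∃ (m : ℕ) (s : Om), n < m ∧ ∀ w : Om, (∀ j, n ≤ j → j < m → w j = s j) → w ∉ A := by
  classical
  rw [nd_iff] at hA
  have key : ∀ T : Finset Om, ∃ (m : ℕ) (s : Om), n < m ∧ ∀ t ∈ T, ∀ w : Om,
      (∀ j, j < n → w j = t j) → (∀ j, n ≤ j → j < m → w j = s j) → w ∉ A := by
    intro T
    induction T using Finset.induction_on with
    | empty => exact ⟨n + 1, fun _ => false, Nat.lt_succ_self n, fun t ht => by simp at ht⟩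
    | insert t T _ ih =>
      obtain ⟨m, s, hm, hs⟩ := ih
      obtain ⟨z, m', hz, hzA⟩ := hA (fun j => if j < n then t j else s j) m
      refine ⟨max m m', z, hm.trans_le (le_max_left _ _), fun t' ht' w h1 h2 => ?_⟩
      rcases Finset.mem_insert.mp ht' with rfl | ht'
      · refine hzA w fun j hj => ?_
        rcases lt_or_ge j n with h | h
        · rw [h1 j h, hz j (h.trans hm), if_pos h]
        · exact h2 j h (hj.trans_le (le_max_right _ _))
      · refine hs t' ht' w h1 fun j h3 h4 => ?_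
        rw [h2 j h3 (h4.trans_le (le_max_left _ _)), hz j h4, if_neg (not_lt.mpr h3)]
  obtain ⟨m, s, hm, hs⟩ := key (Finset.univ.image
    (fun g : Fin n → Bool => (fun j => if h : j < n then g ⟨j, h⟩ else false : Om)))
  refine ⟨m, s, hm, fun w hw => ?_⟩
  refine hs (fun j => if h : j < n then w j else false) ?_ w ?_ hw
  · exact Finset.mem_image.mpr ⟨fun i => w i, Finset.mem_univ _, rfl⟩
  · intro j hj
    show w j = if h : j < n then w j else false
    rw [dif_pos hj]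

lemma exists_D (A : ℕ → Set Om) (hA : ∀ i, IsNowhereDense (A i)) :
    ∃ (x : Om) (k : ℕ → ℕ), Part k ∧ ∀ i, A i ⊆ D x k i := by
  have hA' : ∀ i, IsNowhereDense {w : Om | ∃ l ≤ i, w ∈ A l} := by
    intro i
    induction i with
    | zero =>
      refine (hA 0).mono ?_
      rintro w ⟨l, hl, hw⟩
      rwa [Nat.le_zero.mp hl] at hw
    | succ i ih =>
      refine (nd_union ih (hA (i + 1))).mono ?_
      rintro w ⟨l, hl, hw⟩
      rcases Nat.lt_or_ge l (i + 1) with h | h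
      · exact Or.inl ⟨l, Nat.lt_succ_iff.mp h, hw⟩
      · rw [le_antisymm hl h] at hw
        exact Or.inr hw
  choose m s hm hs using fun i n => step (hA' i) n
  let k : ℕ → ℕ := fun i => Nat.rec 0 (fun i n => m i n) i
  have hk1 : ∀ i, k (i + 1) = m i (k i) := fun i => rfl
  have hk : Part k := ⟨strictMono_nat_of_lt_succ fun i => by rw [hk1]; exact hm i (k i), rfl⟩
  obtain ⟨x, hx⟩ := glue hk fun i => s i (k i)
  refine ⟨x, k, hk, fun i y hy i' hi' => ?_⟩
  by_contra hcon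
  push Not at hcon
  refine hs i' (k i') y (fun j h1 h2 => ?_) ⟨i, hi', hy⟩
  rw [← hk1] at h2
  rw [hcon j h1 h2, hx i' j h1 h2]

/-- the nowhere dense subsets of the Cantor set, ordered by inclusion -/
abbrev NWD : Type := {A : Set Om // IsNowhereDense A}

/-- every element of `A` agrees with an element of `B` up to finitely many coordinates -/
def R (A B : NWD) : Prop := ∀ y ∈ A.1, ∃ z ∈ B.1, ∃ N, ∀ j, N ≤ j → y j = z j

lemma R_of_le {A B : NWD} (h : A ≤ B) : R A B := fun y hy => ⟨y, h hy, 0, fun _ _ => rfl⟩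

lemma R_trans {A B C : NWD} (h1 : R A B) (h2 : R B C) : R A C := by
  intro y hy
  obtain ⟨z, hz, N, hN⟩ := h1 y hy
  obtain ⟨w, hw, M, hM⟩ := h2 z hz
  exact ⟨w, hw, max N M, fun j hj => (hN j ((le_max_left _ _).trans hj)).trans
    (hM j ((le_max_right _ _).trans hj))⟩

lemma shape (B : NWD) : ∃ (x : Om) (k : ℕ → ℕ), Part k ∧ B.1 ⊆ D x k 0 := by
  obtain ⟨x, k, hk, h⟩ := exists_D (fun _ => B.1) (fun _ => B.2)
  exact ⟨x, k, hk, h 0⟩

lemma R_seq (A : ℕ → NWD) : ∃ B, ∀ n, R (A n) B := by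
  obtain ⟨x, k, hk, h⟩ := exists_D (fun i => (A i).1) (fun i => (A i).2)
  refine ⟨⟨D x k 0, D_nd x hk 0⟩, fun n y hy => ?_⟩
  refine ⟨fun j => if j < k n then !x j else y j, ?_, k n, fun j hj => ?_⟩
  · intro i _
    rcases Nat.lt_or_ge i n with hi | hi
    · refine ⟨k i, le_rfl, hk.mono (Nat.lt_succ_self i), ?_⟩
      show (if k i < k n then !x (k i) else y (k i)) ≠ x (k i)
      rw [if_pos (hk.mono hi)]
      cases x (k i) <;> simp
    · obtain ⟨j, h1, h2, h3⟩ := h n hy i hi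
      refine ⟨j, h1, h2, ?_⟩
      show (if j < k n then !x j else y j) ≠ x j
      rwa [if_neg (not_lt.mpr ((hk.mono.monotone hi).trans h1))]
  · show y j = if j < k n then !x j else y j
    rw [if_neg (not_lt.mpr hj)]

lemma dominate {ι : Type} (H : ∀ G : ι → NWD, ∃ B, ∀ ξ, R (G ξ) B) (k : ι → ℕ → ℕ)
    (hk : ∀ ξ, Part (k ξ)) : ∃ m, Part m ∧ ∀ ξ, ∃ N, ∀ i, N ≤ i →
      ∃ l, m i ≤ k ξ l ∧ k ξ (l + 1) ≤ m (i + 1) := by
  classical
  obtain ⟨B, hB⟩ := H fun ξ => ⟨D (fun _ => false) (k ξ) 0, D_nd _ (hk ξ) 0⟩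
  obtain ⟨z, m, hm, hBz⟩ := shape B
  refine ⟨m, hm, fun ξ => ?_⟩
  by_contra hcon
  push Not at hcon
  -- infinitely many bad intervals of one parity
  obtain ⟨p, hp⟩ : ∃ p : ℕ, ∀ N, ∃ i, N ≤ i ∧ i % 2 = p ∧
      ∀ l, m i ≤ k ξ l → m (i + 1) < k ξ (l + 1) := by
    by_contra hc
    push Not at hc
    obtain ⟨N0, h0⟩ := hc 0
    obtain ⟨N1, h1⟩ := hc 1
    obtain ⟨i, hi, hi'⟩ := hcon (max N0 N1)
    rcases Nat.mod_two_eq_zero_or_one i with h | h
    · obtain ⟨l, h2, h3⟩ := h0 i ((le_max_left _ _).trans hi) h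
      exact absurd (hi' l h2) (not_lt.mpr h3)
    · obtain ⟨l, h2, h3⟩ := h1 i ((le_max_right _ _).trans hi) h
      exact absurd (hi' l h2) (not_lt.mpr h3)
  let T : Set ℕ := {i | i % 2 = p ∧ ∀ l, m i ≤ k ξ l → m (i + 1) < k ξ (l + 1)}
  obtain ⟨y, hy⟩ := glue hm fun i => if i ∈ T then z else fun _ => true
  have hyZ : y ∈ D (fun _ => false) (k ξ) 0 := by
    intro l _
    obtain ⟨h1, h2⟩ := idx_spec hm (k ξ l)
    set i := idx m (k ξ l)
    by_cases hi : i ∈ T
    · have h3 := hi.2 l h1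
      have hi1 : i + 1 ∉ T := by
        intro h
        have h4 := hi.1
        have h5 := h.1
        omega
      refine ⟨m (i + 1), h2.le, h3, ?_⟩
      rw [hy (i + 1) (m (i + 1)) le_rfl (hm.mono (Nat.lt_succ_self _)), if_neg hi1]
      simp
    · refine ⟨k ξ l, le_rfl, (hk ξ).mono (Nat.lt_succ_self l), ?_⟩
      rw [hy i (k ξ l) h1 h2, if_neg hi]
      simp
  obtain ⟨w, hw, N, hN⟩ := hB ξ y hyZ
  obtain ⟨i, hi, hi2, hi3⟩ := hp N
  obtain ⟨j, h1, h2, h3⟩ := hBz hw i (Nat.zero_le _)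
  have hj : N ≤ j := hi.trans (hm.mono.le_apply.trans h1)
  refine h3 ?_
  rw [← hN j hj, hy i j h1 h2, if_pos (show i ∈ T from ⟨hi2, hi3⟩)]

lemma sigma {ι : Type} (H : ∀ G : ι → NWD, ∃ B, ∀ ξ, R (G ξ) B) (F : ι → NWD) :
    ∃ E : ℕ → NWD, ∀ ξ, ∃ N, F ξ ≤ E N := by
  classical
  choose x k hk hF using fun ξ => shape (F ξ)
  obtain ⟨m, hm, hmk⟩ := dominate H k hk
  choose N hN using hmk
  -- a sequence `z` which agrees with each `x ξ` on infinitely many intervals of `m`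
  obtain ⟨z, hz⟩ : ∃ z : Om, ∀ ξ, ∀ M, ∃ i, M ≤ i ∧ ∀ j, m i ≤ j → j < m (i + 1) →
      z j = x ξ j := by
    obtain ⟨B, hB⟩ := H fun ξ => ⟨D (x ξ) m 0, D_nd _ hm 0⟩
    obtain ⟨z, n, hn, hBz⟩ := shape B
    refine ⟨z, fun ξ M => ?_⟩
    by_contra hcon
    push Not at hcon
    let w : Om := fun j => if j < m M then !x ξ j else z j
    have hw : w ∈ D (x ξ) m 0 := by
      intro i _
      rcases Nat.lt_or_ge i M with hi | hi
      · refine ⟨m i, le_rfl, hm.mono (Nat.lt_succ_self i), ?_⟩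
        show (if m i < m M then !x ξ (m i) else z (m i)) ≠ x ξ (m i)
        rw [if_pos (hm.mono hi)]
        cases x ξ (m i) <;> simp
      · obtain ⟨j, h1, h2, h3⟩ := hcon i hi
        refine ⟨j, h1, h2, ?_⟩
        show (if j < m M then !x ξ j else z j) ≠ x ξ j
        rwa [if_neg (not_lt.mpr ((hm.mono.monotone hi).trans h1))]
    obtain ⟨w', hw', L, hL⟩ := hB ξ w hw
    obtain ⟨j, h1, h2, h3⟩ := hBz hw' (max L (m M)) (Nat.zero_le _)
    have h4 : max L (m M) ≤ j := hn.mono.le_apply.trans h1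
    refine h3 ?_
    rw [← hL j ((le_max_left _ _).trans h4)]
    show (if j < m M then !x ξ j else z j) = z j
    rw [if_neg (not_lt.mpr ((le_max_right _ _).trans h4))]
  choose g hg hg' using hz
  -- second domination
  let k' : ι → ℕ → ℕ := fun ξ i => Nat.rec 0 (fun _ n => g ξ n + 1) i
  have hk1 : ∀ ξ i, k' ξ (i + 1) = g ξ (k' ξ i) + 1 := fun ξ i => rfl
  have hk' : ∀ ξ, Part (k' ξ) := fun ξ => ⟨strictMono_nat_of_lt_succ fun i => by
    rw [hk1]
    exact Nat.lt_succ_of_le (hg ξ _), rfl⟩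
  obtain ⟨n, hn, hnk⟩ := dominate H k' hk'
  choose N' hN' using hnk
  have hmn : Part (fun i => m (n i)) := ⟨hm.mono.comp hn.mono, by
    show m (n 0) = 0
    rw [hn.zero, hm.zero]⟩
  refine ⟨fun M => ⟨D z (fun i => m (n i)) M, D_nd z hmn M⟩, fun ξ => ⟨max (N ξ) (N' ξ), ?_⟩⟩
  intro y hy i hi
  obtain ⟨l, h1, h2⟩ := hN' ξ i ((le_max_right _ _).trans hi)
  have h3 : n i ≤ g ξ (k' ξ l) := h1.trans (hg ξ _)
  have h4 : g ξ (k' ξ l) < n (i + 1) := by
    have := hk1 ξ l
    omega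
  obtain ⟨l', h5, h6⟩ := hN ξ (g ξ (k' ξ l))
    (((le_max_left _ _).trans hi).trans (hn.mono.le_apply.trans h3))
  obtain ⟨j, h7, h8, h9⟩ := hF ξ hy l' (Nat.zero_le _)
  refine ⟨j, ?_, ?_, ?_⟩
  · exact (hm.mono.monotone h3).trans (h5.trans h7)
  · exact h8.trans_le (h6.trans (hm.mono.monotone h4))
  · rw [hg' ξ (k' ξ l) j (h5.trans h7) (h8.trans_le h6)]
    exact h9

end Pool.Agent.TKY.Nwd
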