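import Pool.Agent.TKY.Core

/-!
# Products of directed posets

Lemma R: for an infinite set `J` the poset `J → ℕ` admits a Tukey map from its own fineness index.
-/

set_option autoImplicit false

namespace Pool.Agent.TKY

open Cardinal Set

universe u

/-- a Tukey map from a regular uncountable cardinal shows that `P` is not fine -/
lemma not_fine_of_tukey {P : Type u} [PartialOrder P] {lam : Cardinal.{u}} (hl : ℵ₀ < lam)
    (hreg : lam.IsRegular) (h : lam.ord.ToType → P)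
    (hh : ∀ p : P, ∃ β : lam.ord.ToType, ∀ α, h α ≤ p → α ≤ β) : ¬ Fine P lam := by
  intro hf
  obtain ⟨B, hB, hBd⟩ := hf (range h) (mk_range_le.trans (mk_ord_toType lam).le)
  choose β hβ using hh
  have hc : #(β '' B) < lam :=
    (le_aleph0_iff_set_countable.mpr (hB.image β)).trans_lt hl
  obtain ⟨γ, hγ⟩ := exists_bound hreg (β '' B) hc
  obtain ⟨b, hb, hle⟩ := hBd (h γ) ⟨γ, rfl⟩
  exact absurd (hβ b γ hle) (not_le.mpr (hγ _ ⟨b, hb, rfl⟩))

/-- a monotone sequence above a countable set -/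
lemma exists_seq {P : Type u} [PartialOrder P] (hd : DirectedPoset P) (hne : Nonempty P)
    {D : Set P} (hD : D.Countable) : ∃ d : ℕ → P, Monotone d ∧ ∀ x ∈ D, ∃ n, x ≤ d n := by
  obtain ⟨p⟩ := hne
  choose j h1 h2 using hd
  obtain ⟨e, he⟩ : ∃ e : ℕ → P, D ⊆ range e := by
    rcases D.eq_empty_or_nonempty with h | h
    · exact ⟨fun _ => p, by rw [h]; exact empty_subset _⟩
    · obtain ⟨e, he⟩ := hD.exists_eq_range h
      exact ⟨e, he.le⟩
  let d : ℕ → P := fun n => Nat.rec (e 0) (fun n x => j x (e (n + 1))) n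
  refine ⟨d, monotone_nat_of_le_succ fun n => h1 _ _, fun x hx => ?_⟩
  obtain ⟨n, rfl⟩ := he hx
  refine ⟨n, ?_⟩
  cases n with
  | zero => exact le_rfl
  | succ n => exact h2 _ _

/-- Lemma R, uncountable case -/
lemma tukey_uncountable (J : Type u) (hJ : ℵ₀ < #J) :
    ∃ f : (ℵ₁ : Cardinal.{u}).ord.ToType → (J → ℕ),
      ∀ N : J → ℕ, ∃ β : (ℵ₁ : Cardinal.{u}).ord.ToType, ∀ α, f α ≤ N → α ≤ β := by
  classical
  have hle : (ℵ₁ : Cardinal.{u}) ≤ #J := by
    rw [← succ_aleph0]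
    exact Order.succ_le_of_lt hJ
  obtain ⟨ι⟩ : Nonempty ((ℵ₁ : Cardinal.{u}).ord.ToType ↪ J) := by
    rw [← Cardinal.le_def, mk_ord_toType]
    exact hle
  have hcount : ∀ α : (ℵ₁ : Cardinal.{u}).ord.ToType, ∃ c : (ℵ₁ : Cardinal.{u}).ord.ToType → ℕ,
      InjOn c (Iio α) := by
    intro α
    have h1 : #(Iio α) ≤ ℵ₀ :=
      Order.lt_succ_iff.mp ((mk_Iio_toType_ord_lt α).trans_eq succ_aleph0.symm)
    exact countable_iff_exists_injOn.mp (le_aleph0_iff_set_countable.mp h1)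
  choose c hc using hcount
  refine ⟨fun α x => if h : ∃ ξ, ι ξ = x ∧ ξ < α then c α h.choose else 0, fun N => ?_⟩
  by_contra hn
  push Not at hn
  -- some value of `N ∘ ι` is taken infinitely often
  obtain ⟨n, hn'⟩ : ∃ n : ℕ, ((fun ξ => N (ι ξ)) ⁻¹' {n}).Infinite := by
    by_contra hfin
    push Not at hfin
    have huniv : (univ : Set (ℵ₁ : Cardinal.{u}).ord.ToType) =
        ⋃ n : ℕ, (fun ξ => N (ι ξ)) ⁻¹' {n} := by
      ext ξ
      simp
    have hcu : (univ : Set (ℵ₁ : Cardinal.{u}).ord.ToType).Countable := by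
      rw [huniv]
      exact countable_iUnion fun n => (hfin n).countable
    have h2 := le_aleph0_iff_set_countable.mpr hcu
    rw [mk_univ, mk_ord_toType, ← succ_aleph0] at h2
    exact absurd h2 (not_le.mpr (Order.lt_succ _))
  obtain ⟨S, hS, hSi, hSc⟩ : ∃ S ⊆ (fun ξ => N (ι ξ)) ⁻¹' {n}, S.Infinite ∧ S.Countable := by
    let s := hn'.natEmbedding
    exact ⟨range fun m => (s m : (ℵ₁ : Cardinal.{u}).ord.ToType),
      by rintro _ ⟨m, rfl⟩; exact (s m).2,
      infinite_range_of_injective (Subtype.val_injective.comp s.injective), countable_range _⟩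
  obtain ⟨γ, hγ⟩ := exists_bound isRegular_aleph_one S
    ((le_aleph0_iff_set_countable.mpr hSc).trans_lt aleph0_lt_aleph_one)
  obtain ⟨α, hα, hγα⟩ := hn γ
  have hlt : ∀ ξ ∈ S, ξ < α := fun ξ hξ => (hγ ξ hξ).trans hγα
  have hval : ∀ ξ ∈ S, c α ξ ≤ n := by
    intro ξ hξ
    have h1 := hα (ι ξ)
    have hex : ∃ η, ι η = ι ξ ∧ η < α := ⟨ξ, rfl, hlt ξ hξ⟩
    have h2 : hex.choose = ξ := ι.injective hex.choose_spec.1
    have h3 : N (ι ξ) = n := hS hξ
    simp only [dif_pos hex, h2, h3] at h1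
    exact h1
  have hfin : S.Finite := by
    refine Finite.of_finite_image (f := c α) ?_ ((hc α).mono fun ξ hξ => hlt ξ hξ)
    refine (finite_Iic n).subset ?_
    rintro _ ⟨ξ, hξ, rfl⟩
    exact hval ξ hξ
  exact hSi hfin

/-- Lemma R, countable case -/
lemma tukey_countable (J : Type u) [Countable J] (hfine : ℵ₀ < cof (J → ℕ)) :
    ∃ f : (fi (J → ℕ)).ord.ToType → (J → ℕ),
      ∀ N : J → ℕ, ∃ β : (fi (J → ℕ)).ord.ToType, ∀ α, f α ≤ N → α ≤ β := by
  classical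
  obtain ⟨idx, hidx⟩ := exists_injective_nat J
  have hreg := isRegular_fi hfine
  have hlt := aleph0_lt_fi hfine
  obtain ⟨A, hA, hA'⟩ : ∃ A : Set (J → ℕ), #A ≤ fi (J → ℕ) ∧
      ¬ ∃ B : Set (J → ℕ), B.Countable ∧ DominatedBy A B := by
    have := not_fine hfine
    unfold Fine at this
    push Not at this
    obtain ⟨A, h1, h2⟩ := this
    exact ⟨A, h1, fun ⟨B, h3, h4⟩ => h2 B h3 h4⟩
  obtain ⟨e⟩ : Nonempty (A ↪ (fi (J → ℕ)).ord.ToType) := by
    rw [← Cardinal.le_def, mk_ord_toType]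
    exact hA
  have hf : ∀ α : (fi (J → ℕ)).ord.ToType, ∃ f : J → ℕ, ∀ a : A, e a < α →
      ∃ n : ℕ, ∀ j, n ≤ idx j → (a : J → ℕ) j ≤ f j := by
    intro α
    have h1 : #{a : J → ℕ | ∃ h : a ∈ A, e ⟨a, h⟩ < α} < fi (J → ℕ) := by
      refine lt_of_le_of_lt ?_ (mk_Iio_toType_ord_lt α)
      refine mk_le_of_injective (f := fun a => ⟨e ⟨a.1, a.2.choose⟩, a.2.choose_spec⟩) ?_
      intro a b hab
      have h2 := congrArg Subtype.val hab
      have h3 := e.injective h2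
      exact Subtype.ext (Subtype.mk.inj h3)
    obtain ⟨B, hB, hBd⟩ := fine_of_lt h1 _ le_rfl
    obtain ⟨E, hE⟩ : ∃ E : ℕ → J → ℕ, B ⊆ range E := by
      rcases B.eq_empty_or_nonempty with h | h
      · exact ⟨fun _ _ => 0, by rw [h]; exact empty_subset _⟩
      · obtain ⟨E, hE⟩ := hB.exists_eq_range h
        exact ⟨E, hE.le⟩
    refine ⟨fun j => (Finset.range (idx j + 1)).sup fun m => E m j, fun a ha => ?_⟩
    obtain ⟨b, hb, hab⟩ := hBd a ⟨a.2, ha⟩
    obtain ⟨n, rfl⟩ := hE hb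
    refine ⟨n, fun j hj => (hab j).trans ?_⟩
    exact Finset.le_sup (f := fun m => E m j) (Finset.mem_range.mpr (Nat.lt_succ_of_le hj))
  choose f hf using hf
  refine ⟨f, fun N => ?_⟩
  by_contra hn
  push Not at hn
  refine hA' ⟨range fun k : ℕ => fun j => max (N j) k, countable_range _, fun a ha => ?_⟩
  obtain ⟨α, hα, hlt'⟩ := hn (e ⟨a, ha⟩)
  obtain ⟨n, hn'⟩ := hf α ⟨a, ha⟩ hlt'
  have hfin : {j : J | idx j < n}.Finite :=
    Finite.of_finite_image ((finite_Iio n).subset (by rintro _ ⟨j, hj, rfl⟩; exact hj)) hidx.injOn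
  refine ⟨_, ⟨hfin.toFinset.sup a, rfl⟩, fun j => ?_⟩
  rcases lt_or_ge (idx j) n with h | h
  · exact le_max_of_le_right (Finset.le_sup (f := a) (hfin.mem_toFinset.mpr h))
  · exact le_max_of_le_left ((hn' j h).trans (hα j))

/-- Lemma R -/
theorem tukey_nat (J : Type u) (hfine : ℵ₀ < cof (J → ℕ)) :
    ∃ f : (fi (J → ℕ)).ord.ToType → (J → ℕ),
      ∀ N : J → ℕ, ∃ β : (fi (J → ℕ)).ord.ToType, ∀ α, f α ≤ N → α ≤ β := by
  rcases le_or_gt #J ℵ₀ with h | h
  · have : Countable J := mk_le_aleph0_iff.mp h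
    exact tukey_countable J hfine
  · obtain ⟨f, hf⟩ := tukey_uncountable J h
    have h1 : fi (J → ℕ) = ℵ₁ := by
      refine le_antisymm (fi_le (not_fine_of_tukey aleph0_lt_aleph_one isRegular_aleph_one f hf)) ?_
      rw [← succ_aleph0]
      exact Order.succ_le_of_lt (aleph0_lt_fi hfine)
    rw [h1]
    exact ⟨f, hf⟩

end Pool.Agent.TKY
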