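import Pool.Agent.TKY.Prod

/-!
# Full products of directed posets

If every factor `P_i` of uncountable cofinality satisfies `fi(P_i) ∈ Sp_χ(P_i)`, then the product
(coordinatewise order) of any family of directed posets `P_i` does.
-/

set_option autoImplicit false

namespace Pool.Agent.TKY

open Cardinal Set

universe u

variable {I : Type u} {P : I → Type u} [∀ i, PartialOrder (P i)]

/-- monotone surjections preserve fineness -/
lemma fine_map {S Q : Type u} [PartialOrder S] [PartialOrder Q] (r : S → Q)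
    (hr : ∀ p q, p ≤ q → r p ≤ r q) (hs : ∀ q, ∃ p, r p = q) {κ : Cardinal.{u}} (h : Fine S κ) :
    Fine Q κ := by
  intro A hA
  choose s hs using hs
  obtain ⟨B, hB, hBd⟩ := h (s '' A) (mk_image_le.trans hA)
  refine ⟨r '' B, hB.image _, fun a ha => ?_⟩
  obtain ⟨b, hb, hab⟩ := hBd _ ⟨a, ha, rfl⟩
  exact ⟨r b, ⟨b, hb, rfl⟩, by
    have := hr _ _ hab
    rwa [hs] at this⟩

/-- a group with a base indexed by an image has a base indexed by the poset -/
lemma sp_map {S Q : Type u} [PartialOrder S] [PartialOrder Q] (r : S → Q)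
    (hr : ∀ p q, p ≤ q → r p ≤ r q) (hs : ∀ q, ∃ p, r p = q) {κ : Cardinal.{u}} (h : κ ∈ Sp Q) :
    κ ∈ Sp S := by
  obtain ⟨G, hG, hT, hTG, hT2, hM, ⟨U, hU, hU2⟩, hch⟩ := h
  refine ⟨G, hG, hT, hTG, hT2, hM, ⟨fun p => U (r p), ?_, fun p q hpq => hU2 _ _ (hr _ _ hpq)⟩, hch⟩
  have : (range fun p : S => U (r p)) = range U := by
    ext V
    constructor
    · rintro ⟨p, rfl⟩
      exact ⟨r p, rfl⟩
    · rintro ⟨a, rfl⟩
      obtain ⟨p, rfl⟩ := hs a
      exact ⟨p, rfl⟩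
  rw [this]
  exact hU

/-- if `Q` is a monotone image of `S` which is not `fi(S)`-fine, then `fi(Q) = fi(S)` -/
lemma fi_map {S Q : Type u} [PartialOrder S] [PartialOrder Q] (r : S → Q)
    (hr : ∀ p q, p ≤ q → r p ≤ r q) (hs : ∀ q, ∃ p, r p = q) (h : ¬ Fine Q (fi S)) :
    fi Q = fi S := by
  refine le_antisymm (fi_le h) ?_
  by_contra hlt
  rw [not_le] at hlt
  exact not_fine (cof_of_not_fine h) (fine_map r hr hs (fine_of_lt hlt))

lemma exists_not_dominated {S : Type u} [PartialOrder S] (hc : ℵ₀ < cof S) :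
    ∃ A : Set S, #A ≤ fi S ∧ ¬ ∃ B : Set S, B.Countable ∧ DominatedBy A B := by
  have := not_fine hc
  unfold Fine at this
  push Not at this
  obtain ⟨A, h1, h2⟩ := this
  exact ⟨A, h1, fun ⟨B, h3, h4⟩ => h2 B h3 h4⟩

omit [∀ i, PartialOrder (P i)] in
lemma eval_surj (p₀ : ∀ i, P i) (i : I) (a : P i) : ∃ p : ∀ i, P i, p i = a := by
  classical
  exact ⟨Function.update p₀ i a, Function.update_self i a p₀⟩

theorem prod_mem_Sp (I : Type u) (P : I → Type u) [∀ i, PartialOrder (P i)]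
    (hd : ∀ i, DirectedPoset (P i)) (h : ∀ i, ℵ₀ < cof (P i) → fi (P i) ∈ Sp (P i))
    (hc : ℵ₀ < cof (∀ i, P i)) : fi (∀ i, P i) ∈ Sp (∀ i, P i) := by
  classical
  obtain ⟨p₀⟩ := nonempty_of_cof hc
  have hdQ : DirectedPoset (∀ i, P i) := by
    intro a b
    choose c h1 h2 using fun i => hd i (a i) (b i)
    exact ⟨c, h1, h2⟩
  by_cases hcase : ∃ i, ¬ Fine (P i) (fi (∀ i, P i))
  · obtain ⟨i, hi⟩ := hcase
    have h1 : fi (P i) = fi (∀ i, P i) :=
      fi_map (fun p : ∀ i, P i => p i) (fun (p q : ∀ i, P i) (hpq : p ≤ q) => hpq i)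
        (eval_surj p₀ i) hi
    have h2 := h i (cof_of_not_fine hi)
    rw [h1] at h2
    exact sp_map (fun p : ∀ i, P i => p i) (fun (p q : ∀ i, P i) (hpq : p ≤ q) => hpq i)
      (eval_surj p₀ i) h2
  · push Not at hcase
    obtain ⟨A, hA, hA'⟩ := exists_not_dominated hc
    -- monotone sequences above the projections of `A`
    have hex : ∀ i, ∃ d : ℕ → P i, Monotone d ∧ ∀ a ∈ A, ∃ n, a i ≤ d n := by
      intro i
      obtain ⟨D, hD, hDd⟩ := hcase i ((fun a : ∀ i, P i => a i) '' A) (mk_image_le.trans hA)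
      obtain ⟨d, hd1, hd2⟩ := exists_seq (hd i) ⟨p₀ i⟩ hD
      refine ⟨d, hd1, fun a ha => ?_⟩
      obtain ⟨x, hx, hax⟩ := hDd _ ⟨a, ha, rfl⟩
      obtain ⟨n, hn⟩ := hd2 x hx
      exact ⟨n, hax.trans hn⟩
    choose d hdm hdA using hex
    -- the coordinates where `A` is not bounded
    let J : Set I := {i | ∀ p : P i, ∃ a ∈ A, ¬ a i ≤ p}
    have hJ : ∀ i : I, ∃ p : P i, i ∉ J → ∀ a ∈ A, a i ≤ p := by
      intro i
      by_cases hi : i ∈ J
      · exact ⟨p₀ i, fun h => absurd hi h⟩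
      · have hi' : ¬ ∀ p : P i, ∃ a ∈ A, ¬ a i ≤ p := hi
        push Not at hi'
        obtain ⟨p, hp⟩ := hi'
        exact ⟨p, fun _ => hp⟩
    choose b hb using hJ
    have hbd : ∀ (i : J) (p : P i), ∃ N : ℕ, ∀ n, d i n ≤ p → n ≤ N := by
      intro i p
      by_contra hn
      push Not at hn
      obtain ⟨a, ha, hap⟩ := i.2 p
      obtain ⟨n, hn'⟩ := hdA i a ha
      obtain ⟨m, hm, hnm⟩ := hn n
      exact hap (hn'.trans ((hdm i hnm.le).trans hm))
    -- the map from functions to the product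
    let F : (J → ℕ) → ∀ i, P i := fun f i => if hi : i ∈ J then d i (f ⟨i, hi⟩) else b i
    have hF : ∀ q : ∀ i, P i, ∃ N : J → ℕ, ∀ f, F f ≤ q → f ≤ N := by
      intro q
      choose N hN using fun i : J => hbd i (q i)
      refine ⟨N, fun f hf i => hN i _ ?_⟩
      have := hf i
      simp only [F, dif_pos i.2] at this
      exact this
    have hfineR : ∀ κ, Fine (∀ i, P i) κ → Fine (J → ℕ) κ := by
      intro κ hκ S hS
      obtain ⟨B, hB, hBd⟩ := hκ (F '' S) (mk_image_le.trans hS)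
      choose N hN using hF
      refine ⟨N '' B, hB.image _, fun f hf => ?_⟩
      obtain ⟨q, hq, hfq⟩ := hBd _ ⟨f, hf, rfl⟩
      exact ⟨N q, ⟨q, hq, rfl⟩, hN q f hfq⟩
    have hnot : ¬ Fine (J → ℕ) (fi (∀ i, P i)) := by
      intro hf
      have hex : ∀ a : A, ∃ g : J → ℕ, ∀ i : J, (a : ∀ i, P i) i ≤ d i (g i) := by
        intro a
        choose g hg using fun i : J => hdA i a a.2
        exact ⟨g, hg⟩
      choose g hg using hex
      obtain ⟨B, hB, hBd⟩ := hf (range g) (mk_range_le.trans hA)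
      refine hA' ⟨F '' B, hB.image _, fun a ha => ?_⟩
      obtain ⟨f, hf, hgf⟩ := hBd _ ⟨⟨a, ha⟩, rfl⟩
      refine ⟨F f, ⟨f, hf, rfl⟩, fun i => ?_⟩
      by_cases hi : i ∈ J
      · simp only [F, dif_pos hi]
        exact (hg ⟨a, ha⟩ ⟨i, hi⟩).trans (hdm i (hgf ⟨i, hi⟩))
      · simp only [F, dif_neg hi]
        exact hb i hi a ha
    have heq : fi (J → ℕ) = fi (∀ i, P i) := by
      refine le_antisymm (fi_le hnot) ?_
      by_contra hlt
      rw [not_le] at hlt
      exact not_fine (cof_of_not_fine hnot) (hfineR _ (fine_of_lt hlt))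
    obtain ⟨f, hf⟩ := tukey_nat J (cof_of_not_fine hnot)
    rw [← heq]
    have hreg := isRegular_fi (cof_of_not_fine hnot)
    refine mem_Sp_of_tukey hdQ ⟨p₀⟩ (aleph0_lt_fi (cof_of_not_fine hnot)) hreg
      (fun α => F (f α)) fun q => ?_
    obtain ⟨N, hN⟩ := hF q
    obtain ⟨β, hβ⟩ := hf N
    exact ⟨β, fun α hα => hβ α (hN _ hα)⟩

end Pool.Agent.TKY
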